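import Pool.Agent.W243.TD.Stm

/-!
# The product inequality in transcendence degree one
-/

set_option autoImplicit false

namespace Pool.Agent.W214.TD

open Module Finset
open Pool.Agent.W243.TD

/-- the field of the complex numbers algebraic over `ℚ(θ)` -/
noncomputable def KK (θ : ℂ) : IntermediateField ℚ ℂ :=
  (algebraicClosure (IntermediateField.adjoin ℚ {θ}) ℂ).restrictScalars ℚ

lemma mem_KK {θ z : ℂ} : z ∈ KK θ ↔ Al θ z := by
  unfold KK Al
  rw [IntermediateField.mem_restrictScalars, mem_algebraicClosure_iff]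

/-- the relations between the `x i` -/
noncomputable def VV {h : ℕ} (K : IntermediateField ℚ ℂ) (x : Fin h → ℂ) :
    Submodule K (Fin h → K) := LinearMap.ker (Fintype.linearCombination K x)

lemma mem_VV {h : ℕ} {K : IntermediateField ℚ ℂ} {x : Fin h → ℂ} {v : Fin h → K} :
    v ∈ VV K x ↔ ∑ i, (v i : ℂ) * x i = 0 := by
  unfold VV
  rw [LinearMap.mem_ker, Fintype.linearCombination_apply]
  rfl

lemma finrank_VV {h : ℕ} (hh : 0 < h) (K : IntermediateField ℚ ℂ) (x : Fin h → ℂ)
    (hx : x ⟨0, hh⟩ ≠ 0) : finrank K (VV K x) ≤ h - 1 := by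
  classical
  have hlt : VV K x < ⊤ := by
    rw [lt_top_iff_ne_top]
    intro htop
    have h1 : (Pi.single (⟨0, hh⟩ : Fin h) (1 : K)) ∈ VV K x := by rw [htop]; trivial
    rw [mem_VV, Finset.sum_eq_single (⟨0, hh⟩ : Fin h)] at h1
    · apply hx
      simpa using h1
    · intro j _ hj
      rw [Pi.single_eq_of_ne hj]
      simp
    · intro h2
      exact absurd (Finset.mem_univ _) h2
  have h2 := Submodule.finrank_lt hlt.ne
  rw [Module.finrank_fintype_fun_eq_card, Fintype.card_fin] at h2
  omega

theorem prod : S_prod := by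
  classical
  intro C L hgen θ hθ X W Y _ _ _ hW hWe hY
  set h := finrank ℚ X with hh
  set r := finrank ℚ W with hr
  rcases Nat.eq_zero_or_pos h with h0 | hpos
  · rw [h0]; simp
  let x : Fin h → ℂ := fun i => ((Module.finBasis ℚ X i : X) : ℂ)
  let w : Fin r → ℂ := fun j => ((Module.finBasis ℚ W j : W) : ℂ)
  have hxm : ∀ i, x i ∈ X := fun i => (Module.finBasis ℚ X i).2
  have hwm : ∀ j, w j ∈ W := fun j => (Module.finBasis ℚ W j).2
  have hx : LinearIndependent ℚ x :=
    (Module.finBasis ℚ X).linearIndependent.map' X.subtype X.ker_subtype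
  have hw : LinearIndependent ℚ w :=
    (Module.finBasis ℚ W).linearIndependent.map' W.subtype W.ker_subtype
  let φ : (Fin h × Fin r → ℚ) →ₗ[ℚ] Y :=
    { toFun := fun c => ⟨∑ p, c p • (x p.1 * w p.2), by
        apply Submodule.sum_mem
        intro p _
        exact Y.smul_mem _ (hY _ (hxm _) _ (hwm _))⟩
      map_add' := by
        intro a b
        apply Subtype.ext
        simp only [Pi.add_apply, add_smul, Finset.sum_add_distrib, Submodule.coe_add]
      map_smul' := by
        intro c a
        apply Subtype.ext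
        simp only [Pi.smul_apply, smul_eq_mul, mul_smul, Finset.smul_sum, RingHom.id_apply,
          Submodule.coe_smul] }
  have hφ : ∀ c, ((φ c : Y) : ℂ) = ∑ p, c p • (x p.1 * w p.2) := fun c => rfl
  have h1 := LinearMap.finrank_range_add_finrank_ker φ
  rw [Module.finrank_fintype_fun_eq_card, Fintype.card_prod, Fintype.card_fin, Fintype.card_fin]
    at h1
  have h2 : finrank ℚ (LinearMap.range φ) ≤ finrank ℚ Y := Submodule.finrank_le _
  have h3 : finrank ℚ (LinearMap.ker φ) ≤ C * (h * (h - 1)) := by
    let B := Module.finBasis ℚ (LinearMap.ker φ)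
    let s : Fin (finrank ℚ (LinearMap.ker φ)) → Fin h → ℂ :=
      fun m i => ∑ j, (B m : Fin h × Fin r → ℚ) (i, j) • w j
    have hsW : ∀ m i, s m i ∈ W := by
      intro m i
      apply Submodule.sum_mem
      intro j _
      exact W.smul_mem _ (hwm j)
    let z : Fin (finrank ℚ (LinearMap.ker φ)) → Fin h → KK θ :=
      fun m i => ⟨s m i, mem_KK.2 (hW _ (hsW m i))⟩
    have hz : ∀ m i, ((z m i : KK θ) : ℂ) = s m i := fun m i => rfl
    have hx0 : x ⟨0, hpos⟩ ≠ 0 := hx.ne_zero _
    have hfr := finrank_VV hpos (KK θ) x hx0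
    have hle := hgen θ hθ (KK θ) (fun z => mem_KK.1 z.2) h (finrank ℚ (LinearMap.ker φ))
      (finrank (KK θ) (VV (KK θ) x)) (VV (KK θ) x) z rfl ?_ ?_ ?_ ?_
    · refine hle.trans (Nat.mul_le_mul_left _ ?_)
      have h5 : finrank (KK θ) (VV (KK θ) x) + 1 ≤ h := by omega
      calc finrank (KK θ) (VV (KK θ) x) * (finrank (KK θ) (VV (KK θ) x) + 1)
          ≤ (h - 1) * h := Nat.mul_le_mul hfr h5
        _ = h * (h - 1) := mul_comm _ _
    · intro q hq
      rw [mem_VV] at hq
      have h5 := Fintype.linearIndependent_iff.mp hx q (by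
        rw [← hq]
        apply Finset.sum_congr rfl
        intro i _
        rw [Algebra.smul_def]
        rfl)
      exact funext h5
    · intro m
      rw [mem_VV]
      have h4 : ((φ (B m : Fin h × Fin r → ℚ) : Y) : ℂ) = 0 := by
        have := (B m).2
        rw [LinearMap.mem_ker] at this
        rw [this]; rfl
      rw [hφ, Fintype.sum_prod_type] at h4
      rw [← h4]
      apply Finset.sum_congr rfl
      intro i _
      rw [hz, mul_comm]
      show x i * (∑ j, (B m : Fin h × Fin r → ℚ) (i, j) • w j) = _
      rw [Finset.mul_sum]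
      apply Finset.sum_congr rfl
      intro j _
      rw [mul_smul_comm]
    · intro m i
      rw [hz]
      exact hWe _ (hsW m i)
    · rw [Fintype.linearIndependent_iff]
      intro b hb
      have h5 : ∀ i j, ∑ m, b m * (B m : Fin h × Fin r → ℚ) (i, j) = 0 := by
        intro i
        have h6 := congrArg (fun y : KK θ => (y : ℂ)) (congrFun hb i)
        simp only [Finset.sum_apply, Pi.smul_apply, Pi.zero_apply] at h6
        have h7 : ((∑ m, b m • z m i : KK θ) : ℂ) = ∑ m, b m • s m i := by
          rw [← IntermediateField.algebraMap_apply, map_sum]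
          apply Finset.sum_congr rfl
          intro m _
          rw [Algebra.smul_def, map_mul, Algebra.smul_def]
          rfl
        rw [h7] at h6
        have h8 : ∑ m, b m • s m i = ∑ j, (∑ m, b m * (B m : Fin h × Fin r → ℚ) (i, j)) • w j := by
          show ∑ m, b m • (∑ j, (B m : Fin h × Fin r → ℚ) (i, j) • w j) = _
          simp only [Finset.smul_sum, smul_smul, Finset.sum_smul]
          rw [Finset.sum_comm]
        rw [h8] at h6
        exact Fintype.linearIndependent_iff.mp hw _ (by simpa using h6)
      have h7 : ∑ m, b m • B m = 0 := by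
        apply Subtype.ext
        rw [Submodule.coe_sum]
        funext p
        obtain ⟨i, j⟩ := p
        rw [Finset.sum_apply]
        exact h5 i j
      exact Fintype.linearIndependent_iff.mp B.linearIndependent b h7
  omega

end Pool.Agent.W214.TD
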